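import Pool.Agent.P.MP_01f353_gt.Lamp

set_option autoImplicit false

namespace Pool.Agent.P.MP_01f353_gt

namespace Data

variable (d : Data)

/-- Points whose active lamps of level below `a` are tight. -/
def Wa (a : ℕ) : Set ℂ :=
  {z | ‖z‖ ≤ d.R ∧ ∃ h : ℤ, ∀ x r : ℕ, x / 8 < a → (r : ℤ) < d.p.M (x / 8) →
    ¬d.p.Dead (x / 8) (h + r - d.p.off x) → nm (d.Y x (16 * r + 1) z) ≤ 4 * d.β}

def Z : Set ℂ := ⋂ a, closure (d.Wa a)

/-- Points at which the move `w` is allowed at time `j`. -/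
def Al (j : ℕ) (w : Mv) : Set ℂ :=
  {z | ‖d.mv w z‖ ≤ d.R ∧ (w.1 = true ↔ j = 0) ∧
    (∀ x s : ℕ, d.p.Serv (x / 8) j → (s : ℤ) = d.p.off x →
      nm (d.Y x (16 * s + 1) z + d.β * cor w (x % 8)) ≤
        max d.β (nm (d.Y x (16 * s + 1) z) - d.β)) ∧
    ((∀ n, ¬d.p.Serv n j) → ∀ c, cor w c = 0)}

/-- The layers. -/
def L : ℕ → Set ℂ
  | 0 => (fun z => d.t * z) '' d.Z
  | j + 1 => ⋃ w, d.mv w '' (L j ∩ d.Al j w)

theorem Z_norm {z : ℂ} (hz : z ∈ d.Z) : ‖z‖ ≤ d.R :=
  closure_minimal (t := {z : ℂ | ‖z‖ ≤ d.R}) (fun _ h => h.1)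
    (isClosed_le continuous_norm continuous_const) (Set.mem_iInter.1 hz 0)

theorem L_norm {j : ℕ} {z : ℂ} (hz : z ∈ d.L j) : ‖z‖ ≤ d.R := by
  cases j with
  | zero =>
    obtain ⟨y, hy, rfl⟩ := hz
    rw [norm_mul, d.t_norm, one_mul]
    exact d.Z_norm hy
  | succ j =>
    obtain ⟨w, y, hy, rfl⟩ := Set.mem_iUnion.1 hz
    exact hy.2.1

theorem exists_al (j : ℕ) (b : Bool) {z : ℂ} (hz : ‖z‖ ≤ d.R) :
    ∃ w : Mv, w.2.1 = b ∧ z ∈ d.Al j w := by
  obtain ⟨c, hc1, hc2⟩ : ∃ c : Fin 8 → SignType,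
      (∀ x s : ℕ, d.p.Serv (x / 8) j → (s : ℤ) = d.p.off x →
        nm (d.Y x (16 * s + 1) z + d.β * ((c ⟨x % 8, Nat.mod_lt _ (by norm_num)⟩ : ℤ) : ℝ)) ≤
          max d.β (nm (d.Y x (16 * s + 1) z) - d.β)) ∧ ((∀ n, ¬d.p.Serv n j) → c = 0) := by
    by_cases h : ∃ n, d.p.Serv n j
    · obtain ⟨n, hn⟩ := h
      choose c hc using fun c : Fin 8 =>
        fix (d.Y (8 * n + c) (16 * (d.p.off (8 * n + c)).toNat + 1) z) d.β
      refine ⟨c, fun x s hx hs => ?_, fun h => absurd hn (h n)⟩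
      have h1 := d.p.serv_uniq hx hn
      have h2 := hc ⟨x % 8, Nat.mod_lt _ (by norm_num)⟩
      have h3 : 8 * n + x % 8 = x := by omega
      simp only [h3] at h2
      rwa [← hs, Int.toNat_natCast] at h2
    · exact ⟨0, fun x s hx => absurd ⟨_, hx⟩ h, fun _ => rfl⟩
  obtain ⟨u, v, h⟩ := d.bounded (decide (j = 0)) b c hz
  refine ⟨(decide (j = 0), b, u, v, c), rfl, h, by simp, fun x s hx hs => ?_, fun h e => ?_⟩
  · have h1 : cor (decide (j = 0), b, u, v, c) (x % 8) =
        (c ⟨x % 8, Nat.mod_lt _ (by norm_num)⟩ : ℤ) := dif_pos (Nat.mod_lt _ (by norm_num))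
    rw [h1]
    exact hc1 x s hx hs
  · simp [cor, hc2 h]

theorem sum_far (w : Mv) (x r : ℕ) : ∑ e ∈ Finset.range 15,
    d.dig w e * tgt d.S (16 * (d.p.off x - 1) + 4 + (x % 8 : ℕ)) (16 * r + 1 + e) =
    if (r : ℤ) + 1 = d.p.off x then d.β * cor w (x % 8) else 0 := by
  have hx : x % 8 < 8 := Nat.mod_lt _ (by norm_num)
  split_ifs with h
  · rw [Finset.sum_eq_single (x % 8 + 3)]
    · unfold tgt dig β
      rw [if_neg (by omega), if_neg (by omega), if_neg (by omega), if_neg (by omega),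
        if_pos (by omega), Nat.add_sub_cancel, mul_comm]
    · intro e he hne
      have := Finset.mem_range.1 he
      unfold tgt
      rw [if_neg (by omega), if_neg (by omega), mul_zero]
    · intro hn
      exact absurd (Finset.mem_range.2 (by omega)) hn
  · refine Finset.sum_eq_zero fun e he => ?_
    have := Finset.mem_range.1 he
    unfold tgt
    rw [if_neg (by omega), if_neg (by omega), mul_zero]

theorem keep (x : ℕ) (B : ℤ) (hB : ¬d.p.Dead (x / 8) (B - d.p.off x)) (j : ℕ)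
    (hj : 2 * (d.p.M (x / 8) ^ 2).toNat * (32 * d.S) ≤ j) (z : ℂ) (hz : z ∈ d.L j) (r : ℕ)
    (hr : (r : ℤ) < d.p.M (x / 8)) (hd : d.p.M (x / 8) ∣ B - j - r) :
    nm (d.Y x (16 * r + 1) z) ≤ 4 * d.β := by
  classical
  have hβ := d.β_pos
  have hS := d.S_pos
  have hδ := d.δ_pos (x / 8)
  have hM := d.p.M_pos (x / 8)
  obtain ⟨o1, o2⟩ := d.p.off_bd x
  let own : ℕ → Prop := fun b => d.p.M (x / 8) ∣ B - d.p.off x - b ∧ d.p.U (x / 8) b
  let hit : ℕ → Prop := fun b => d.p.M (x / 8) ∣ B - d.p.off x - b ∧ ∃ k, x / 8 < k ∧ d.p.Serv k b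
  obtain ⟨θ, hθ⟩ : ∃ θ, θ = 92 * (d.S + 8) * d.δ (x / 8) := ⟨_, rfl⟩
  let N : ℕ → ℝ := fun b => Nat.rec (1 / 2) (fun b v => if own b then max d.β (v - d.β) + θ
    else if hit b then v + d.β + θ else v + θ) b
  have Ns : ∀ b, N (b + 1) = if own b then max d.β (N b - d.β) + θ
      else if hit b then N b + d.β + θ else N b + θ := fun _ => rfl
  have main : ∀ j : ℕ, ∀ z ∈ d.L j, ∀ r : ℕ, (r : ℤ) < d.p.M (x / 8) →
      d.p.M (x / 8) ∣ B - j - r → nm (d.Y x (16 * r + 1) z) ≤ N j := by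
    intro j
    induction j with
    | zero => exact fun z _ r _ _ => nm_half _
    | succ j ih =>
      intro z hz r hr hd
      obtain ⟨w, y, ⟨hy, ha⟩, rfl⟩ := Set.mem_iUnion.1 hz
      have h1 := d.step w x (16 * r + 1) y (by push_cast; omega)
      rw [d.sum_far, show 16 * r + 1 + 16 = 16 * (r + 1) + 1 by ring] at h1
      have hd' : d.p.M (x / 8) ∣ B - j - (r + 1 : ℕ) := by
        convert hd using 1
        push_cast
        ring
      have tri : ∀ a b c : ℝ, nm a ≤ nm (b + c) + nm (a - b - c) := fun a b c => by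
        have := nm_add (b + c) (a - b - c)
        rwa [show b + c + (a - b - c) = a by ring] at this
      have w0 : 0 ≤ 32 * (d.S + 8) * d.δ (x / 8) := by positivity
      rw [Ns]
      by_cases hs : (r : ℤ) + 1 = d.p.off x
      · rw [if_pos hs] at h1
        have h2 := ih y hy (r + 1) (by push_cast; omega) hd'
        have h3 := tri (d.Y x (16 * r + 1) (d.mv w y)) (d.Y x (16 * (r + 1) + 1) y)
          (d.β * cor w (x % 8))
        have h4 : d.p.M (x / 8) ∣ B - d.p.off x - j := by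
          convert hd' using 1
          push_cast
          rw [← hs]
          ring
        have h5 : ¬d.p.Dead (x / 8) j := fun h => hB (d.p.dead_per h4 h)
        by_cases ho : own j
        · have h6 := ha.2.2.1 x (r + 1) ⟨ho.2, h5⟩ (by push_cast; exact hs)
          have h7 := max_le_max_left d.β (sub_le_sub_right h2 d.β)
          rw [if_pos ho]
          linarith
        · rw [if_neg ho]
          by_cases hh : hit j
          · have h6 := nm_add (d.Y x (16 * (r + 1) + 1) y) (d.β * cor w (x % 8))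
            have h7 : |d.β * cor w (x % 8)| ≤ d.β := by
              have h8 : |(cor w (x % 8) : ℝ)| ≤ 1 := by exact_mod_cast cor_abs w _
              rw [abs_mul, abs_of_pos hβ]
              nlinarith
            rw [if_pos hh]
            linarith [nm_le (d.β * cor w (x % 8))]
          · have h6 : cor w (x % 8) = 0 := ha.2.2.2 (fun k hk => by
              rcases lt_trichotomy k (x / 8) with h | h | h
              · exact h5 (d.p.dead_of_U h hk.1)
              · exact ho ⟨h4, h ▸ hk.1⟩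
              · exact hh ⟨h4, k, h, hk⟩) _
            rw [h6, Int.cast_zero, mul_zero] at h1 h3
            rw [add_zero] at h3
            rw [if_neg hh]
            linarith
      · rw [if_neg hs] at h1
        have h4 : ¬d.p.M (x / 8) ∣ B - d.p.off x - j := fun h => hs (by
          have h5 := Int.eq_zero_of_abs_lt_dvd (dvd_sub h hd') (by
            push_cast
            rw [abs_lt]
            constructor <;> omega)
          push_cast at h5
          omega)
        have h3 := tri (d.Y x (16 * r + 1) (d.mv w y)) (d.Y x (16 * (r + 1) + 1) y) 0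
        rw [add_zero] at h3
        rw [if_neg fun h : own j => h4 h.1, if_neg fun h : hit j => h4 h.1]
        by_cases hw : (r : ℤ) + 1 < d.p.M (x / 8)
        · have h2 := ih y hy (r + 1) (by push_cast; omega) hd'
          linarith
        · have h6 : ((r + 1 : ℕ) : ℤ) = d.p.M (x / 8) := by push_cast; omega
          have h2 := ih y hy 0 (by simpa using hM) (by
            rw [h6] at hd'
            simpa using dvd_add hd' dvd_rfl)
          have h7 := d.wrapY x (r + 1) h6 (d.L_norm hy)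
          simp only [mul_zero, zero_add] at h2
          linarith
  have hC : (((d.p.M (x / 8) ^ 2).toNat : ℕ) : ℤ) = d.p.M (x / 8) ^ 2 :=
    Int.toNat_of_nonneg (by positivity)
  generalize (d.p.M (x / 8) ^ 2).toNat = C at hC hj
  refine (main j z hz r hr hd).trans (queue own hit C (32 * d.S) hβ (θ := θ)
    (by rw [hθ]; positivity) ?_ ?_ N le_rfl (fun b h => by rw [Ns, if_pos h]) (fun b h => ?_)
    (fun b h h' => by rw [Ns, if_neg h, if_neg h']) (fun u => ?_) (fun b b' h h' hb => ?_) j hj)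
  · have h1 : (C : ℝ) = (d.p.M (x / 8) : ℝ) ^ 2 := by exact_mod_cast hC
    rw [h1, hθ]
    exact d.δ_le _
  · unfold β
    push_cast
    exact le_of_eq (by field_simp)
  · obtain ⟨-, k, hk, hs⟩ := id h
    rw [Ns, if_neg fun ho : own b => hs.2 (d.p.dead_of_U hk ho.2), if_pos h]
  · obtain ⟨o, a1, a2, a3, a4⟩ := d.p.own_freq (x / 8) (B - d.p.off x) u
    lift o to ℕ using by omega
    exact ⟨o, by omega, by omega, a3, a4⟩
  · obtain ⟨a1, k, hk, hs⟩ := h
    obtain ⟨a2, k', hk', hs'⟩ := h'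
    by_contra hn
    exact d.p.hit_sep hk hk' hs hs' (by omega) (by omega) (by simpa using dvd_sub a1 a2)

theorem L_sub (a : ℕ) : ∃ J, ∀ j, J ≤ j → d.L j ⊆ d.Wa a := by
  refine ⟨∑ n ∈ Finset.range a, 2 * (d.p.M n ^ 2).toNat * (32 * d.S), fun j hj z hz =>
    ⟨d.L_norm hz, j, fun x r hx hr hd => d.keep x (j + r) hd j (le_trans ?_ hj) z hz r hr ?_⟩⟩
  · exact Finset.single_le_sum (f := fun n => 2 * (d.p.M n ^ 2).toNat * (32 * d.S))
      (fun _ _ => Nat.zero_le _) (Finset.mem_range.2 hx)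
  · simp

end Data

end Pool.Agent.P.MP_01f353_gt
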