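import Mathlib

set_option autoImplicit false

namespace Pool.Agent.P.MP_01f353_gt

open MeasureTheory

/-- Distance to the nearest integer. -/
noncomputable def nm (x : ℝ) : ℝ := ‖(x : UnitAddCircle)‖

theorem nm_add (x y : ℝ) : nm (x + y) ≤ nm x + nm y := by
  unfold nm
  rw [AddCircle.coe_add]
  exact norm_add_le _ _

theorem nm_neg (x : ℝ) : nm (-x) = nm x := by
  unfold nm
  rw [AddCircle.coe_neg, norm_neg]

theorem nm_sub (x y : ℝ) : nm (x - y) ≤ nm x + nm y := by
  rw [sub_eq_add_neg, ← nm_neg y]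
  exact nm_add _ _

theorem nm_le (x : ℝ) : nm x ≤ |x| := QuotientAddGroup.norm_mk_le_norm

theorem nm_nonneg (x : ℝ) : 0 ≤ nm x := norm_nonneg _

theorem nm_zero : nm 0 = 0 := by simp [nm]

theorem nm_half (x : ℝ) : nm x ≤ 1 / 2 := by
  simpa [nm] using AddCircle.norm_le_half_period (1 : ℝ) (x := (x : UnitAddCircle)) one_ne_zero

theorem nm_eq {x : ℝ} (h : |x| ≤ 1 / 2) : nm x = |x| :=
  (AddCircle.norm_coe_eq_abs_iff (1 : ℝ) one_ne_zero).2 (by simpa using h)

theorem nm_round (x : ℝ) : nm x = |x - round x| := UnitAddCircle.norm_eq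

theorem nm_int (x : ℝ) (k : ℤ) : nm (x - k) = nm x := by
  unfold nm
  have h : ((k : ℝ) : UnitAddCircle) = 0 := (AddCircle.coe_eq_zero_iff (1 : ℝ)).2 ⟨k, by simp⟩
  rw [AddCircle.coe_sub, h, sub_zero]

theorem nm_zmul (k : ℤ) (x : ℝ) : nm (k * x) ≤ |(k : ℝ)| * nm x := by
  unfold nm
  rw [← zsmul_eq_mul, AddCircle.coe_zsmul]
  exact norm_zsmul_le k (x : UnitAddCircle)

theorem nm_sum {ι : Type} (s : Finset ι) (f : ι → ℝ) : nm (∑ i ∈ s, f i) ≤ ∑ i ∈ s, nm (f i) :=
  Finset.le_sum_of_subadditive nm nm_zero.le nm_add s f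

theorem nm_cont : Continuous nm := continuous_norm.comp (AddCircle.continuous_mk' 1)

theorem mF_add {ι : Type} [Fintype ι] (n : ι → ℤ) (x y : UnitAddTorus ι) :
    UnitAddTorus.mFourier n (x + y) = UnitAddTorus.mFourier n x * UnitAddTorus.mFourier n y := by
  simp only [UnitAddTorus.mFourier, ContinuousMap.coe_mk, Pi.add_apply, fourier_apply, smul_add,
    AddCircle.toCircle_add, Circle.coe_mul, Finset.prod_mul_distrib]

/-- A closed subgroup of a torus on which no character is trivial is everything. -/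
theorem closed_top {ι : Type} [Fintype ι] (H : AddSubgroup (UnitAddTorus ι))
    (hH : IsClosed (H : Set (UnitAddTorus ι)))
    (hn : ∀ n : ι → ℤ, n ≠ 0 → ∃ x ∈ H, UnitAddTorus.mFourier n x ≠ 1) (y : UnitAddTorus ι) :
    y ∈ H := by
  by_contra hy
  have : CompactSpace H := isCompact_iff_compactSpace.1 hH.isCompact
  let _ : MeasurableSpace H := borel _
  have : BorelSpace H := ⟨rfl⟩
  let μ : Measure H := Measure.addHaar
  have hi : ∀ (y : UnitAddTorus ι) (f : C(UnitAddTorus ι, ℂ)),
      Integrable (fun h : H => f (y + h)) μ := fun y f =>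
    (f.continuous.comp (continuous_const.add continuous_subtype_val)).integrable_of_hasCompactSupport
      (HasCompactSupport.of_compactSpace _)
  let L0 : UnitAddTorus ι → C(UnitAddTorus ι, ℂ) →ₗ[ℂ] ℂ := fun y =>
    { toFun := fun f => ∫ h : H, f (y + h) ∂μ
      map_add' := fun f g => by simpa using integral_add (hi y f) (hi y g)
      map_smul' := fun c f => by simpa using integral_const_mul c fun h : H => f (y + h) }
  let L : UnitAddTorus ι → C(UnitAddTorus ι, ℂ) →L[ℂ] ℂ := fun y =>
    (L0 y).mkContinuous (μ.real Set.univ) fun f => by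
      rw [mul_comm]
      exact norm_integral_le_of_norm_le_const (Filter.Eventually.of_forall fun h =>
        f.norm_coe_le_norm _)
  have hL : ∀ y f, L y f = ∫ h : H, f (y + h) ∂μ := fun _ _ => rfl
  have key : L y = L 0 := by
    refine ContinuousLinearMap.ext_on (s := Set.range (UnitAddTorus.mFourier (d := ι))) ?_ ?_
    · rw [Submodule.dense_iff_topologicalClosure_eq_top]
      exact UnitAddTorus.span_mFourier_closure_eq_top
    · rintro _ ⟨n, rfl⟩
      rw [hL, hL]
      by_cases h0 : n = 0
      · simp [h0, UnitAddTorus.mFourier_zero]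
      · obtain ⟨x, hx, hx1⟩ := hn n h0
        have h1 := integral_add_left_eq_self (μ := μ)
          (fun h : H => UnitAddTorus.mFourier n (h : UnitAddTorus ι)) ⟨x, hx⟩
        simp only [AddSubgroup.coe_add, mF_add, integral_const_mul] at h1
        have h2 : ∫ h : H, UnitAddTorus.mFourier n (h : UnitAddTorus ι) ∂μ = 0 := by
          have h3 : (UnitAddTorus.mFourier n x - 1) *
              ∫ h : H, UnitAddTorus.mFourier n (h : UnitAddTorus ι) ∂μ = 0 := by
            rw [sub_mul, h1]
            ring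
          exact (mul_eq_zero.1 h3).resolve_left (sub_ne_zero.2 hx1)
        simp only [mF_add, integral_const_mul, h2, mul_zero]
  have hc : IsClosed {x : UnitAddTorus ι | x - y ∈ H} :=
    hH.preimage (continuous_id.sub continuous_const)
  have hd : Disjoint (H : Set (UnitAddTorus ι)) {x | x - y ∈ H} := by
    refine Set.disjoint_left.2 fun x h1 h2 => hy ?_
    simpa using H.sub_mem h1 h2
  obtain ⟨f, f0, f1, -⟩ := exists_continuous_zero_one_of_isClosed hH hc hd
  let g : C(UnitAddTorus ι, ℂ) := ⟨fun x => (f x : ℂ), Complex.continuous_ofReal.comp f.continuous⟩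
  have e1 : L y g = μ.real Set.univ := by
    rw [hL]
    have : ∀ h : H, g (y + h) = 1 := fun h => by
      have h4 : f (y + h) = 1 := f1 (by simp)
      simp [g, h4]
    simp [this]
  have e0 : L 0 g = 0 := by
    rw [hL]
    have : ∀ h : H, g (0 + h) = 0 := fun h => by
      have h4 : f h = 0 := f0 h.2
      simp [g, h4]
    simp only [this, integral_zero]
  rw [key, e0] at e1
  have hp : 0 < μ.real Set.univ :=
    ENNReal.toReal_pos (isOpen_univ.measure_ne_zero μ Set.univ_nonempty) (measure_ne_top _ _)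
  exact hp.ne (by exact_mod_cast e1)

/-- Kronecker approximation. -/
theorem kron {ι : Type} [Fintype ι] (lam : ι → ℂ)
    (h : ∀ n : ι → ℤ, ∑ i, (n i : ℂ) * lam i = 0 → n = 0) (τ : ι → ℝ) {δ : ℝ} (hδ : 0 < δ) :
    ∃ η : ℂ, ∀ i, nm ((η * lam i).re - τ i) ≤ δ := by
  let φ : ℂ →+ UnitAddTorus ι :=
    { toFun := fun η i => (((η * lam i).re : ℝ) : UnitAddCircle)
      map_zero' := by funext i; simp
      map_add' := fun a b => by funext i; simp [add_mul] }
  have hy := closed_top φ.range.topologicalClosure φ.range.isClosed_topologicalClosure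
    (fun n hn => by
      have h0 : ∑ i, (n i : ℂ) * lam i ≠ 0 := fun e => hn (h n e)
      refine ⟨φ ((1 / 2) * (∑ i, (n i : ℂ) * lam i)⁻¹),
        φ.range.le_topologicalClosure ⟨_, rfl⟩, ?_⟩
      generalize hη : (1 / 2) * (∑ i, (n i : ℂ) * lam i)⁻¹ = η
      have h1 : η * ∑ i, (n i : ℂ) * lam i = 1 / 2 := by
        rw [← hη, mul_assoc, inv_mul_cancel₀ h0, mul_one]
      have h2 : ∑ i, (n i : ℝ) * (η * lam i).re = 1 / 2 := by
        have h3 := congrArg Complex.re h1
        rw [Finset.mul_sum, Complex.re_sum] at h3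
        have h4 : (1 / 2 : ℂ).re = 1 / 2 := by norm_num
        rw [← h4, ← h3]
        refine Finset.sum_congr rfl fun i _ => ?_
        rw [mul_left_comm]
        simp
      have h5 : UnitAddTorus.mFourier n (φ η) = Complex.exp (Real.pi * Complex.I) := by
        have h6 : ∀ i, fourier (n i) (φ η i) =
            Complex.exp (2 * Real.pi * Complex.I * (((n i : ℝ) * (η * lam i).re : ℝ) : ℂ)) := by
          intro i
          have := fourier_coe_apply (T := 1) (n := n i) (x := (η * lam i).re)
          refine this.trans ?_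
          congr 1
          push_cast
          ring
        simp only [UnitAddTorus.mFourier, ContinuousMap.coe_mk, h6]
        rw [← Complex.exp_sum, ← Finset.mul_sum, ← Complex.ofReal_sum, h2]
        congr 1
        push_cast
        ring
      rw [h5, Complex.exp_pi_mul_I]
      norm_num) fun i => (τ i : UnitAddCircle)
  obtain ⟨_, ⟨η, rfl⟩, hη⟩ := Metric.mem_closure_iff.1 hy δ hδ
  refine ⟨η, fun i => ?_⟩
  have h7 := (dist_le_pi_dist _ _ i).trans hη.le
  rw [dist_comm, dist_eq_norm] at h7
  unfold nm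
  rw [AddCircle.coe_sub]
  exact h7

end Pool.Agent.P.MP_01f353_gt
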