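import Mathlib

set_option autoImplicit false

namespace Pool.Agent.P.MP_01f353_gt

/-- Sizes of the levels: level `k` has `W k * (2 * T k)` blocks. -/
structure Par where
  W : ℕ → ℤ
  T : ℕ → ℤ
  W0 : W 0 = 1
  Ws : ∀ k, W (k + 1) = (W k * (2 * T k)) ^ 2
  Tl : ∀ k, 2 ^ (k + 10) ≤ T k

namespace Par

variable (p : Par)

def M (k : ℕ) : ℤ := p.W k * (2 * p.T k)

theorem T_pos (k : ℕ) : 0 < p.T k := lt_of_lt_of_le (by positivity) (p.Tl k)

theorem T_big (k : ℕ) : 1024 ≤ p.T k := by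
  have h : (2 : ℤ) ^ 10 ≤ 2 ^ (k + 10) := pow_le_pow_right₀ one_le_two (by omega)
  have := p.Tl k
  omega

theorem W_pos (k : ℕ) : 0 < p.W k := by
  induction k with
  | zero => rw [p.W0]; exact one_pos
  | succ k ih =>
    rw [p.Ws]
    have := p.T_pos k
    positivity

theorem M_pos (k : ℕ) : 0 < p.M k := by
  have := p.T_pos k
  have := p.W_pos k
  unfold M
  positivity

theorem W_succ (k : ℕ) : p.W (k + 1) = p.M k ^ 2 := p.Ws k

theorem WM (k : ℕ) : 2048 * p.W k ≤ p.M k := by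
  have := p.T_big k
  have := p.W_pos k
  unfold M
  nlinarith

theorem W_dvd {i j : ℕ} (h : i ≤ j) : p.W i ∣ p.W j := by
  induction j, h using Nat.le_induction with
  | base => exact dvd_rfl
  | succ j _ ih =>
    rw [p.W_succ]
    exact ih.trans ((Dvd.intro _ rfl : p.W j ∣ p.M j).trans (dvd_pow_self _ two_ne_zero))

theorem W_le {i j : ℕ} (h : i ≤ j) : p.W i ≤ p.W j := Int.le_of_dvd (p.W_pos j) (p.W_dvd h)

def psi (k : ℕ) (b : ℤ) : ℤ := b - b / p.M k

def U (k : ℕ) (b : ℤ) : Prop := p.M k ∣ p.psi k b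

def D (k : ℕ) (b : ℤ) : Prop := ∃ e : ℤ, |e| ≤ 2 * p.W k ∧ p.M k ∣ p.psi k b - e

def Dead (n : ℕ) (b : ℤ) : Prop := ∃ k < n, p.D k b

def Serv (n : ℕ) (b : ℤ) : Prop := p.U n b ∧ ¬p.Dead n b

theorem psi_mono (k : ℕ) {b b' : ℤ} (h : b ≤ b') :
    0 ≤ p.psi k b' - p.psi k b ∧ p.psi k b' - p.psi k b ≤ b' - b := by
  have h0 := p.M_pos k
  have h1 : b / p.M k ≤ b' / p.M k := Int.ediv_le_ediv h0 h
  have h2 : b' / p.M k ≤ (b + (b' - b) * p.M k) / p.M k :=
    Int.ediv_le_ediv h0 (by nlinarith)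
  rw [Int.add_mul_ediv_right _ _ h0.ne'] at h2
  unfold psi
  constructor <;> linarith

theorem psi_lip (k : ℕ) (b b' : ℤ) : |p.psi k b' - p.psi k b| ≤ |b' - b| := by
  rcases le_total b b' with h | h
  · obtain ⟨h1, h2⟩ := p.psi_mono k h
    rw [abs_of_nonneg h1, abs_of_nonneg (by linarith)]
    exact h2
  · obtain ⟨h1, h2⟩ := p.psi_mono k h
    rw [abs_sub_comm, abs_sub_comm b', abs_of_nonneg h1, abs_of_nonneg (by linarith)]
    exact h2

theorem psi_add (k : ℕ) (b a : ℤ) : p.psi k (b + a * p.M k) = p.psi k b - a + a * p.M k := by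
  unfold psi
  rw [Int.add_mul_ediv_right _ _ (p.M_pos k).ne']
  ring

theorem D_near {k : ℕ} {b b' : ℤ} (h : p.U k b') (hb : |b - b'| ≤ 2 * p.W k) : p.D k b :=
  ⟨p.psi k b - p.psi k b', (p.psi_lip k b' b).trans hb, by simpa [U] using h⟩

theorem dead_per {n : ℕ} {b b' : ℤ} (h : p.M n ∣ b' - b) (hb : p.Dead n b) : p.Dead n b' := by
  obtain ⟨k, hk, e, he, hd⟩ := hb
  refine ⟨k, hk, e, he, ?_⟩
  obtain ⟨q, hq⟩ : p.W (k + 1) ∣ b' - b :=
    ((p.W_dvd hk).trans (Dvd.intro _ rfl : p.W n ∣ p.M n)).trans h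
  have e1 : b' = b + (p.M k * q) * p.M k := by
    rw [p.W_succ] at hq
    linear_combination hq
  rw [e1, p.psi_add]
  have e2 : p.psi k b - p.M k * q + p.M k * q * p.M k - e =
      (p.psi k b - e) + p.M k * (q * p.M k - q) := by ring
  rw [e2]
  exact dvd_add hd (Dvd.intro _ rfl)

theorem dead_of_U {k n : ℕ} {b : ℤ} (hk : k < n) (h : p.U k b) : p.Dead n b :=
  ⟨k, hk, p.D_near h (by have := p.W_pos k; simp; omega)⟩

theorem serv_uniq {k n : ℕ} {b : ℤ} (h : p.Serv k b) (h' : p.Serv n b) : k = n := by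
  rcases lt_trichotomy k n with hk | hk | hk
  · exact absurd (p.dead_of_U hk h.1) h'.2
  · exact hk
  · exact absurd (p.dead_of_U hk h'.1) h.2

theorem own_freq (n : ℕ) (b u : ℤ) :
    ∃ o : ℤ, u ≤ o ∧ o < u + p.M n ^ 2 ∧ p.M n ∣ b - o ∧ p.U n o := by
  have h0 := p.M_pos n
  have h1 : 0 < p.M n ^ 2 := by positivity
  have r0 := Int.emod_nonneg b h0.ne'
  have r1 := Int.emod_lt_of_pos b h0
  have r2 := Int.emod_add_mul_ediv b (p.M n)
  generalize b % p.M n = ρ at r0 r1 r2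
  have h2 := Int.emod_add_mul_ediv (ρ + ρ * p.M n - u) (p.M n ^ 2)
  have h3 := Int.emod_nonneg (ρ + ρ * p.M n - u) h1.ne'
  have h4 := Int.emod_lt_of_pos (ρ + ρ * p.M n - u) h1
  generalize (ρ + ρ * p.M n - u) % p.M n ^ 2 = x at h2 h3 h4
  generalize (ρ + ρ * p.M n - u) / p.M n ^ 2 = q at h2
  have e : u + x = ρ + (ρ - p.M n * q) * p.M n := by linear_combination h2
  refine ⟨u + x, by linarith, by linarith, ⟨b / p.M n - ρ + p.M n * q, ?_⟩, ?_⟩
  · rw [e]
    linear_combination -r2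
  · unfold U
    rw [e, p.psi_add]
    unfold psi
    rw [Int.ediv_eq_zero_of_lt r0 r1]
    exact ⟨q + ρ - p.M n * q, by ring⟩

theorem hit_sep {n k k' : ℕ} {b b' : ℤ} (hk : n < k) (hk' : n < k') (h : p.Serv k b)
    (h' : p.Serv k' b') (h1 : b < b') (h2 : b' ≤ b + 2 * p.M n ^ 2) (h3 : p.M n ∣ b' - b) :
    False := by
  have w : ∀ i, n < i → |b' - b| ≤ 2 * p.W i := fun i hi => by
    have := p.W_le (Nat.succ_le_of_lt hi)
    rw [p.W_succ] at this
    rw [abs_of_nonneg (by linarith)]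
    linarith
  rcases lt_trichotomy k k' with hl | rfl | hl
  · exact h'.2 ⟨k, hl, p.D_near h.1 (w k hk)⟩
  · have h4 := Int.le_of_dvd (by linarith) h3
    have h5 := p.WM n
    have h6 := p.W_pos n
    have h7 := p.WM k
    have h8 := (le_abs_self _).trans (w k hk)
    have h9 := p.W_pos k
    have ha := (p.psi_mono k h1.le).2
    have hb := (p.psi_mono k (show b' ≤ b + 1 * p.M k by linarith)).2
    rw [p.psi_add] at hb
    have hc := Int.le_of_dvd (by linarith) (dvd_sub h'.1 h.1)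
    linarith
  · exact h.2 ⟨k', hl, p.D_near h'.1 (by rw [abs_sub_comm]; exact w k' hk')⟩

def dig (i x : ℕ) : ℤ := ((x % 2 ^ (i + 4) : ℕ) : ℤ) * (16 * p.W i)

def low (k x : ℕ) : ℤ := ∑ i ∈ Finset.range k, p.dig i x * p.M i

/-- The offset of the far probe of register `x`. -/
def off (x : ℕ) : ℤ := p.low (x / 8) x + p.W (x / 8) * p.T (x / 8)

theorem dig_bd (i x : ℕ) : 0 ≤ p.dig i x ∧ 4 * p.dig i x ≤ p.M i := by
  have h0 := p.W_pos i
  have h1 : ((x % 2 ^ (i + 4) : ℕ) : ℤ) ≤ 2 ^ (i + 4) := by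
    exact_mod_cast (Nat.mod_lt x (by positivity)).le
  have h2 := p.Tl i
  have h3 : (2 : ℤ) ^ (i + 10) = 2 ^ (i + 4) * 64 := by ring
  have h4 : (0 : ℤ) ≤ ((x % 2 ^ (i + 4) : ℕ) : ℤ) := Int.natCast_nonneg _
  unfold dig M
  constructor <;> nlinarith

theorem low_succ (k x : ℕ) : p.low (k + 1) x = p.low k x + p.dig k x * p.M k :=
  Finset.sum_range_succ _ _

theorem low_bd (k x : ℕ) : 0 ≤ p.low k x ∧ p.low k x ≤ p.W k := by
  induction k with
  | zero => simp [low, p.W0]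
  | succ k ih =>
    obtain ⟨h1, h2⟩ := p.dig_bd k x
    have h3 := p.WM k
    have h4 := p.W_pos k
    rw [p.low_succ, p.W_succ]
    constructor <;> nlinarith [ih.1, ih.2]

theorem low_hi {k m : ℕ} (h : k ≤ m) (x : ℕ) : p.W k ∣ p.low m x - p.low k x := by
  induction m, h using Nat.le_induction with
  | base => simp
  | succ m hm ih =>
    rw [p.low_succ, add_sub_right_comm]
    exact dvd_add ih (((p.W_dvd hm).trans (Dvd.intro _ rfl : p.W m ∣ p.M m)).mul_left _)

theorem off_bd (x : ℕ) : p.M (x / 8) ≤ 2 * p.off x ∧ p.off x < p.M (x / 8) := by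
  obtain ⟨h1, h2⟩ := p.low_bd (x / 8) x
  have h3 := p.WM (x / 8)
  have h4 := p.W_pos (x / 8)
  have h5 : p.M (x / 8) = 2 * (p.W (x / 8) * p.T (x / 8)) := by
    unfold M
    ring
  unfold off
  constructor <;> linarith

theorem kill_aux {k x : ℕ} (hk : k < x / 8) {B : ℤ} (h : p.D k (B - p.off x)) :
    ∃ e : ℤ, |e| ≤ 3 * p.W k ∧ p.M k ∣ p.psi k B + p.dig k x - e := by
  obtain ⟨e, he, hd⟩ := h
  obtain ⟨q, hq⟩ : p.W (k + 1) ∣ p.off x - p.low (k + 1) x := by
    unfold off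
    rw [add_sub_right_comm]
    exact dvd_add (p.low_hi hk x) ((p.W_dvd hk).mul_right _)
  rw [p.W_succ, p.low_succ] at hq
  have e1 : B - p.off x = (B - p.low k x) + (-p.dig k x - p.M k * q) * p.M k := by
    linear_combination -hq
  rw [e1, p.psi_add] at hd
  have h1 := p.psi_lip k (B - p.low k x) B
  obtain ⟨h2, h3⟩ := p.low_bd k x
  rw [sub_sub_cancel, abs_of_nonneg h2] at h1
  refine ⟨e + (p.psi k B - p.psi k (B - p.low k x)), (abs_add_le _ _).trans (by linarith), ?_⟩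
  have e2 : p.psi k B + p.dig k x - (e + (p.psi k B - p.psi k (B - p.low k x))) =
      (p.psi k (B - p.low k x) - (-p.dig k x - p.M k * q) + (-p.dig k x - p.M k * q) * p.M k - e) +
        p.M k * (p.dig k x + p.M k * q - q) := by ring
  rw [e2]
  exact dvd_add hd (Dvd.intro _ rfl)

theorem kill {k x y : ℕ} (hx : k < x / 8) (hy : k < y / 8) {B : ℤ} (h : p.D k (B - p.off x))
    (h' : p.D k (B - p.off y)) : x ≡ y [MOD 2 ^ (k + 4)] := by
  obtain ⟨e, he, hd⟩ := p.kill_aux hx h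
  obtain ⟨e', he', hd'⟩ := p.kill_aux hy h'
  obtain ⟨a1, a2⟩ := p.dig_bd k x
  obtain ⟨b1, b2⟩ := p.dig_bd k y
  have h3 := p.WM k
  have h4 := p.W_pos k
  rw [abs_le] at he he'
  have h5 := Int.eq_zero_of_abs_lt_dvd (dvd_sub hd hd') (by rw [abs_lt]; constructor <;> linarith)
  unfold dig at h5
  have h6 : ((x % 2 ^ (k + 4) : ℕ) : ℤ) = ((y % 2 ^ (k + 4) : ℕ) : ℤ) := by
    by_contra hne
    rcases lt_or_gt_of_ne hne with hl | hl <;> nlinarith
  exact_mod_cast h6

theorem card_cong {S : Finset ℕ} {a L I : ℕ} (hS : S ⊆ Finset.Ico a (a + L))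
    (h : ∀ x ∈ S, ∀ y ∈ S, x ≡ y [MOD I]) : S.card ≤ L / I + 1 := by
  rw [← Finset.card_range (L / I + 1)]
  refine Finset.card_le_card_of_injOn (fun x => (x - a) / I) (fun x hx => ?_) fun x hx y hy e => ?_
  · have h1 := Finset.mem_Ico.1 (hS hx)
    exact Finset.mem_coe.2 (Finset.mem_range.2
      (Nat.lt_succ_of_le (Nat.div_le_div_right (by omega))))
  · have h1 := Finset.mem_Ico.1 (hS hx)
    have h2 := Finset.mem_Ico.1 (hS hy)
    have h3 : x - a ≡ y - a [MOD I] := by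
      refine Nat.ModEq.add_right_cancel' a ?_
      rw [Nat.sub_add_cancel h1.1, Nat.sub_add_cancel h2.1]
      exact h x hx y hy
    have h4 := Nat.mod_add_div (x - a) I
    have h5 := Nat.mod_add_div (y - a) I
    unfold Nat.ModEq at h3
    simp only at e
    rw [h3, e, h5] at h4
    omega

theorem sum_geo (N K : ℕ) : ∑ k ∈ Finset.range K, 8 * N / 2 ^ (k + 4) ≤ N := by
  have h : ∀ K : ℕ, ((∑ k ∈ Finset.range K, 8 * N / 2 ^ (k + 4) : ℕ) : ℝ) ≤ N - N / 2 ^ K := by
    intro K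
    induction K with
    | zero => simp
    | succ K ih =>
      have h1 : ((8 * N / 2 ^ (K + 4) : ℕ) : ℝ) ≤ ((8 * N : ℕ) : ℝ) / ((2 ^ (K + 4) : ℕ) : ℝ) :=
        Nat.cast_div_le
      have h2 : ((8 * N : ℕ) : ℝ) / ((2 ^ (K + 4) : ℕ) : ℝ) = N / 2 ^ K - N / 2 ^ (K + 1) := by
        push_cast
        field_simp
        ring
      rw [Finset.sum_range_succ, Nat.cast_add]
      linarith
  have h1 : (0 : ℝ) ≤ N / 2 ^ K := by positivity
  have h2 := h K
  exact_mod_cast (show ((∑ k ∈ Finset.range K, 8 * N / 2 ^ (k + 4) : ℕ) : ℝ) ≤ N by linarith)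

theorem common {N : ℕ} (hN : 0 < N) (B B' : ℤ) : ∃ x : ℕ, 8 * N ≤ x ∧ x < 16 * N ∧
    ¬p.Dead (x / 8) (B - p.off x) ∧ ¬p.Dead (x / 8) (B' - p.off x) := by
  classical
  by_contra hc
  let bad : ℤ → ℕ → Finset ℕ := fun B k =>
    (Finset.Ico (8 * N) (8 * N + 8 * N)).filter fun x => k < x / 8 ∧ p.D k (B - p.off x)
  have hb : ∀ B k, (bad B k).card ≤ 8 * N / 2 ^ (k + 4) + 1 := fun B k =>
    card_cong (Finset.filter_subset _ _) fun x hx y hy =>
      p.kill (Finset.mem_filter.1 hx).2.1 (Finset.mem_filter.1 hy).2.1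
        (Finset.mem_filter.1 hx).2.2 (Finset.mem_filter.1 hy).2.2
  have hs : ∀ B, ((Finset.range (2 * N)).biUnion (bad B)).card ≤ 3 * N := fun B => by
    refine Finset.card_biUnion_le.trans ((Finset.sum_le_sum fun k _ => hb B k).trans ?_)
    have := sum_geo N (2 * N)
    rw [Finset.sum_add_distrib]
    simp only [Finset.sum_const, Finset.card_range, smul_eq_mul, mul_one]
    omega
  have hsub : Finset.Ico (8 * N) (8 * N + 8 * N) ⊆
      (Finset.range (2 * N)).biUnion (bad B) ∪ (Finset.range (2 * N)).biUnion (bad B') := by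
    intro x hx
    have h1 := Finset.mem_Ico.1 hx
    have h2 : ∀ B, p.Dead (x / 8) (B - p.off x) → x ∈ (Finset.range (2 * N)).biUnion (bad B) := by
      rintro B ⟨k, hk, hd⟩
      exact Finset.mem_biUnion.2 ⟨k, Finset.mem_range.2 (by omega),
        Finset.mem_filter.2 ⟨hx, hk, hd⟩⟩
    by_contra hn
    rw [Finset.mem_union, not_or] at hn
    exact hc ⟨x, h1.1, by omega, fun h => hn.1 (h2 B h), fun h => hn.2 (h2 B' h)⟩
  have h3 := (Finset.card_le_card hsub).trans (Finset.card_union_le _ _)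
  have h4 := hs B
  have h5 := hs B'
  rw [Nat.card_Ico] at h3
  omega

end Par

/-- The worst case of the distance of a lamp to zero. -/
theorem queue (own hit : ℕ → Prop) (C K : ℕ) {β θ : ℝ} (hβ : 0 < β) (hθ : 0 ≤ θ)
    (hC : 4 * C * θ ≤ β) (hK : 1 ≤ K * β) (N : ℕ → ℝ) (h0 : N 0 ≤ 1 / 2)
    (h1 : ∀ b, own b → N (b + 1) ≤ max β (N b - β) + θ)
    (h2 : ∀ b, hit b → N (b + 1) ≤ N b + β + θ)
    (h3 : ∀ b, ¬own b → ¬hit b → N (b + 1) ≤ N b + θ)
    (ho : ∀ u, ∃ o, u ≤ o ∧ o < u + C ∧ own o)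
    (hh : ∀ b b', hit b → hit b' → b < b' → b + 2 * C < b') (b : ℕ) (hb : 2 * C * K ≤ b) :
    N b ≤ 4 * β := by
  classical
  let P : ℕ → ℝ := fun b => max (N b) β
  let H : ℕ → ℝ := fun b => ∑ i ∈ Finset.range b, if hit i then β else 0
  have p1 : ∀ b, N b ≤ P b := fun b => le_max_left _ _
  have p2 : ∀ b, β ≤ P b := fun b => le_max_right _ _
  have Hs : ∀ b, H (b + 1) = H b + if hit b then β else 0 := fun b => Finset.sum_range_succ _ _
  have Hm : Monotone H := monotone_nat_of_le_succ fun b => by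
    rw [Hs]
    split_ifs <;> linarith
  have run : ∀ u v, u ≤ v → P v ≤ P u + (H v - H u) + θ * ((v : ℝ) - u) := by
    intro u v huv
    induction v, huv using Nat.le_induction with
    | base => simp
    | succ v _ ih =>
      have h4 : P (v + 1) ≤ P v + (if hit v then β else 0) + θ := by
        have a1 := p1 v
        have a2 := p2 v
        refine max_le ?_ (by split_ifs <;> linarith)
        by_cases hv : hit v
        · rw [if_pos hv]
          linarith [h2 v hv]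
        · rw [if_neg hv]
          by_cases hw : own v
          · linarith [h1 v hw, max_le a2 (show N v - β ≤ P v by linarith)]
          · linarith [h3 v hw hv]
      rw [Hs]
      push_cast
      linarith
  have serve : ∀ o, own o → P (o + 1) ≤ max β (P o - β) + θ := fun o h => by
    refine max_le ((h1 o h).trans ?_) (by linarith [le_max_left β (P o - β)])
    have := max_le_max_left β (show N o - β ≤ P o - β by linarith [p1 o])
    linarith
  have Hw : ∀ u v, u ≤ v → v ≤ u + 2 * C → H v - H u ≤ β := by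
    intro u v huv hv
    have e : H v - H u = ∑ i ∈ Finset.Ico u v, if hit i then β else 0 :=
      (Finset.sum_Ico_eq_sub _ huv).symm
    have hc : ((Finset.Ico u v).filter hit).card ≤ 1 := by
      refine Finset.card_le_one.2 fun x hx y hy => ?_
      obtain ⟨x1, x2⟩ := Finset.mem_filter.1 hx
      obtain ⟨y1, y2⟩ := Finset.mem_filter.1 hy
      rw [Finset.mem_Ico] at x1 y1
      have := hh x y x2 y2
      have := hh y x y2 x2
      omega
    have hc' : (((Finset.Ico u v).filter hit).card : ℝ) ≤ 1 := by exact_mod_cast hc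
    rw [e, ← Finset.sum_filter, Finset.sum_const, nsmul_eq_mul]
    nlinarith
  have win : ∀ u, P (u + 2 * C) ≤ max (P u - β / 2) (5 * β / 2) := by
    intro u
    obtain ⟨o, o1, o2, o3⟩ := ho u
    obtain ⟨o', o1', o2', o3'⟩ := ho (u + C)
    have a1 := run u o o1
    have a2 := serve o o3
    have a3 := run (o + 1) o' (by omega)
    have a4 := serve o' o3'
    have a5 := run (o' + 1) (u + 2 * C) (by omega)
    have a6 := Hw u (u + 2 * C) (by omega) le_rfl
    have m1 := Hm o1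
    have m2 := Hm (Nat.le_succ o)
    have m3 := Hm (show o + 1 ≤ o' by omega)
    have m4 := Hm (Nat.le_succ o')
    have m5 := Hm (show o' + 1 ≤ u + 2 * C by omega)
    have t1 : 0 ≤ θ * ((o : ℝ) - u) := mul_nonneg hθ (sub_nonneg.2 (by exact_mod_cast o1))
    have t2 : 0 ≤ θ * ((o' : ℝ) - ((o + 1 : ℕ) : ℝ)) :=
      mul_nonneg hθ (sub_nonneg.2 (by exact_mod_cast (show o + 1 ≤ o' by omega)))
    have l1 := le_max_left (P u - β / 2) (5 * β / 2)
    have l2 := le_max_right (P u - β / 2) (5 * β / 2)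
    simp only [Nat.succ_eq_add_one] at m2 m4
    push_cast at a3 a5 t2
    rcases max_cases β (P o - β) with ⟨e, -⟩ | ⟨e, -⟩ <;>
      rcases max_cases β (P o' - β) with ⟨e', -⟩ | ⟨e', -⟩ <;>
      rw [e] at a2 <;> rw [e'] at a4 <;> nlinarith
  have it : ∀ k : ℕ, P (2 * C * k) ≤ max (1 / 2 - k * (β / 2)) (5 * β / 2) := by
    intro k
    induction k with
    | zero =>
      refine max_le ?_ (le_max_of_le_right (by linarith))
      exact le_max_of_le_left (by simpa using h0)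
    | succ k ih =>
      rw [Nat.mul_succ]
      refine (win _).trans (max_le ?_ (le_max_right _ _))
      push_cast
      rcases max_cases (1 / 2 - k * (β / 2)) (5 * β / 2) with ⟨e, -⟩ | ⟨e, -⟩ <;> rw [e] at ih
      · exact le_max_of_le_left (by linarith)
      · exact le_max_of_le_right (by linarith)
  have C0 : 0 < 2 * C := by
    obtain ⟨o, o1, o2, -⟩ := ho 0
    omega
  have d1 := Nat.mul_div_le b (2 * C)
  have d2 : b < 2 * C * (b / (2 * C)) + 2 * C := Nat.lt_mul_div_succ b C0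
  have d3 : (K : ℝ) ≤ (b / (2 * C) : ℕ) := by
    exact_mod_cast (Nat.le_div_iff_mul_le C0).2 (by rwa [mul_comm])
  have a1 := run _ _ d1
  have a2 := Hw _ _ d1 d2.le
  have a3 := (it (b / (2 * C))).trans (max_le (show _ ≤ 5 * β / 2 by nlinarith) le_rfl)
  have a4 : (b : ℝ) - ((2 * C * (b / (2 * C)) : ℕ) : ℝ) ≤ 2 * C := by
    have : (b : ℝ) ≤ ((2 * C * (b / (2 * C)) + 2 * C : ℕ) : ℝ) := by exact_mod_cast d2.le
    rw [Nat.cast_add, Nat.cast_mul 2 C, Nat.cast_ofNat] at this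
    linarith
  nlinarith [p1 b, mul_le_mul_of_nonneg_left a4 hθ]

end Pool.Agent.P.MP_01f353_gt
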