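import Pool.Agent.P.MP_01f353_gt.Rot
import Pool.Agent.P.MP_01f353_gt.Sched

set_option autoImplicit false

namespace Pool.Agent.P.MP_01f353_gt

open Complex

/-- Moves: first-move flag, free bit, two steering signs, eight corrections. -/
abbrev Mv : Type := Bool × Bool × Bool × Bool × (Fin 8 → SignType)

/-- Target values of the kernel of a register with far probe `f`. -/
noncomputable def tgt (S : ℕ) (f : ℤ) (l : ℕ) : ℝ :=
  if l = 0 then 1 / (2 * S) else if (l : ℤ) = f then 1 / (32 * S) else 0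

/-- All the data of the construction. -/
structure Data where
  S : ℕ
  sig : Mv → ℕ
  sig_inj : Function.Injective sig
  sig_lt : ∀ w, sig w < S
  p : Par
  t : ℂ
  t_norm : ‖t‖ = 1
  t_near : ‖t - I‖ ≤ 1 / 2
  δ : ℕ → ℝ
  δ_pos : ∀ n, 0 ≤ δ n
  δ_le : ∀ n, 4 * (p.M n : ℝ) ^ 2 * (92 * (S + 8) * δ n) ≤ 1 / (32 * S)
  η : ℕ → ℂ
  ker : ∀ x l : ℕ, (l : ℤ) < 16 * p.M (x / 8) →
    nm ((η x * t ^ l).re - tgt S (16 * (p.off x - 1) + 4 + (x % 8 : ℕ)) l) ≤ δ (x / 8)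
  wrap : ∀ x m : ℕ, (m : ℤ) = 16 * p.M (x / 8) → ‖η x‖ * ‖t ^ m + 1‖ ≤ δ (x / 8)

theorem exists_data : Nonempty Data := by
  obtain ⟨S, sig, hs1, hs2⟩ : ∃ (S : ℕ) (sig : Mv → ℕ), Function.Injective sig ∧ ∀ w, sig w < S :=
    ⟨Fintype.card Mv, fun w => Fintype.equivFin Mv w,
      fun a b h => (Fintype.equivFin Mv).injective (Fin.ext h), fun w => (Fintype.equivFin Mv w).2⟩
  have S0 : (0 : ℝ) < S := by exact_mod_cast (Nat.zero_le _).trans_lt (hs2 default)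
  obtain ⟨e, t, t1, t2, e0, e1, e2, h⟩ := rot (fun f l => tgt S f l)
    (fun E => 1 / (32 * S) / (4 * (2 ^ E) ^ 2 * (92 * (S + 8)))) (fun E => by positivity)
    fun E => 3 * E
  have e3 : ∀ n, n + 20 ≤ e n := fun n => by
    induction n with
    | zero => omega
    | succ n ih => have := e2 n; omega
  let w : ℕ → ℕ := fun n => Nat.casesOn n 0 fun k => 2 * (e k - 4)
  have hw : ∀ n, w n + n + 15 ≤ e n := by
    rintro (_ | n)
    · simp [w, e0]
    · have := e1 n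
      have := e3 n
      simp only [w]
      omega
  have hM : ∀ n, (2 : ℤ) ^ w n * (2 * 2 ^ (e n - 5 - w n)) = 2 ^ (e n - 4) := fun n => by
    rw [← pow_succ', ← pow_add]
    congr 1
    have := hw n
    omega
  let p : Par :=
    { W := fun n => 2 ^ w n
      T := fun n => 2 ^ (e n - 5 - w n)
      W0 := by simp [w]
      Ws := fun k => by
        rw [hM, ← pow_mul, mul_comm]
      Tl := fun k => pow_le_pow_right₀ one_le_two (by have := hw k; omega) }
  have hp : ∀ n, 16 * p.M n = 2 ^ e n := fun n => by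
    have h1 : p.M n = 2 ^ (e n - 4) := hM n
    have h2 : e n = e n - 4 + 4 := by have := e3 n; omega
    rw [h1]
    conv_rhs => rw [h2]
    ring
  have hf : ∀ x : ℕ, ∃ f : ℕ, f < 2 ^ e (x / 8) ∧
      (f : ℤ) = 16 * (p.off x - 1) + 4 + (x % 8 : ℕ) := by
    intro x
    obtain ⟨h1, h2⟩ := p.off_bd x
    have h3 := p.M_pos (x / 8)
    have h4 := hp (x / 8)
    refine ⟨(16 * (p.off x - 1) + 4 + (x % 8 : ℕ)).toNat, ?_, Int.toNat_of_nonneg (by omega)⟩
    have h5 : ((16 * (p.off x - 1) + 4 + (x % 8 : ℕ)).toNat : ℤ) < 2 ^ e (x / 8) := by omega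
    exact_mod_cast h5
  choose f hf1 hf2 using hf
  choose η hη1 hη2 using fun x : ℕ => h (x / 8) (f x) (hf1 x)
  refine ⟨⟨S, sig, hs1, hs2, p, t, t1, t2,
    fun n => 1 / (32 * S) / (4 * (2 ^ e n) ^ 2 * (92 * (S + 8))), fun n => by positivity,
    fun n => ?_, η, fun x l hl => ?_, fun x m hm => ?_⟩⟩
  · have h1 : (0 : ℝ) < p.M n := by exact_mod_cast p.M_pos n
    have h2 : 16 * (p.M n : ℝ) = 2 ^ e n := by exact_mod_cast hp n
    have h3 : (p.M n : ℝ) ≤ 2 ^ e n := by linarith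
    calc _ ≤ 4 * ((2 : ℝ) ^ e n) ^ 2 *
          (92 * (S + 8) * (1 / (32 * S) / (4 * (2 ^ e n) ^ 2 * (92 * (S + 8))))) := by gcongr
      _ = 1 / (32 * S) := by field_simp
  · rw [← hf2]
    rw [hp] at hl
    exact hη1 x l (by exact_mod_cast hl)
  · rw [hp] at hm
    have h1 : m = 2 ^ e (x / 8) := by exact_mod_cast hm
    rw [h1]
    exact hη2 x

def cor (w : Mv) (c : ℕ) : ℤ := if h : c < 8 then (w.2.2.2.2 ⟨c, h⟩ : ℤ) else 0

theorem cor_abs (w : Mv) (c : ℕ) : |cor w c| ≤ 1 := by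
  unfold cor
  split_ifs with h
  · rcases w.2.2.2.2 ⟨c, h⟩ <;> simp
  · simp

def sg (b : Bool) : ℤ := if b then 1 else -1

theorem fix (y β : ℝ) :
    ∃ σ : SignType, nm (y + β * ((σ : ℤ) : ℝ)) ≤ max β (nm y - β) := by
  have h : ∀ a : ℝ, nm (y + a) ≤ |y - round y + a| := fun a => by
    rw [← nm_int (y + a) (round y), add_sub_right_comm]
    exact nm_le _
  rw [nm_round y]
  rcases le_or_gt |y - round y| β with h1 | h1
  · exact ⟨0, (h _).trans (le_max_of_le_left (by simpa using h1))⟩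
  · rcases abs_cases (y - round y) with ⟨e, -⟩ | ⟨e, -⟩ <;> rw [e] at h1 ⊢
    · refine ⟨-1, (h _).trans (le_max_of_le_right ?_)⟩
      rw [abs_le]
      constructor <;> simp <;> linarith
    · refine ⟨1, (h _).trans (le_max_of_le_right ?_)⟩
      rw [abs_le]
      constructor <;> simp <;> linarith

theorem steer {t : ℂ} (h1 : ‖t‖ = 1) (h2 : ‖t - I‖ ≤ 1 / 2) {P : ℝ} (hP : 0 < P) {v : ℂ}
    (hv : ‖v‖ ≤ 32 * P) :
    ∃ a b : Bool, ‖v + (4 * P * sg a : ℝ) + (4 * P * sg b : ℝ) * t‖ ≤ 31 * P := by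
  have r1 := (abs_re_le_norm _).trans h2
  have r2 := (abs_im_le_norm _).trans h2
  simp only [sub_re, I_re, sub_zero, sub_im, I_im, abs_le] at r1 r2
  have r3 : t.re ^ 2 + t.im ^ 2 = 1 := by
    have := Complex.sq_norm t
    rw [h1, normSq_apply] at this
    linarith
  have n1 := Complex.sq_norm v
  rw [normSq_apply] at n1
  have n2 := norm_le_abs_re_add_abs_im v
  obtain ⟨a, ha⟩ : ∃ a : Bool, (sg a : ℝ) * v.re = -|v.re| := by
    rcases abs_cases v.re with ⟨e, -⟩ | ⟨e, -⟩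
    · exact ⟨false, by simp [sg, e]⟩
    · exact ⟨true, by simp [sg, e]⟩
  obtain ⟨b, hb⟩ : ∃ b : Bool, (sg b : ℝ) * (v.re * t.re + v.im * t.im) =
      -|v.re * t.re + v.im * t.im| := by
    rcases abs_cases (v.re * t.re + v.im * t.im) with ⟨e, -⟩ | ⟨e, -⟩
    · exact ⟨false, by simp [sg, e]⟩
    · exact ⟨true, by simp [sg, e]⟩
  have sq : ∀ c : Bool, (sg c : ℝ) ^ 2 = 1 := by rintro (_ | _) <;> simp [sg]
  have sm : (sg a : ℝ) * sg b * t.re ≤ 1 := by
    rcases a <;> rcases b <;> simp [sg] <;> linarith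
  have n3 : |v.im| ≤ 2 * |v.re * t.re + v.im * t.im| + |v.re| := by
    have a1 : |v.im * t.im| ≤ |v.re * t.re + v.im * t.im| + |v.re * t.re| := by
      simpa using abs_sub (v.re * t.re + v.im * t.im) (v.re * t.re)
    have a2 : |t.re| ≤ 1 / 2 := abs_le.2 r1
    have a3 : 1 / 2 ≤ |t.im| := le_abs.2 (Or.inl (by linarith))
    rw [abs_mul, abs_mul] at a1
    nlinarith [abs_nonneg v.im, abs_nonneg v.re]
  refine ⟨a, b, abs_le_of_sq_le_sq' ?_ (by positivity) |>.2⟩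
  have e : ‖v + (4 * P * sg a : ℝ) + (4 * P * sg b : ℝ) * t‖ ^ 2 = ‖v‖ ^ 2 +
      8 * P * (sg a * v.re + sg b * (v.re * t.re + v.im * t.im)) +
      16 * P ^ 2 * ((sg a : ℝ) ^ 2 + (sg b : ℝ) ^ 2 * (t.re ^ 2 + t.im ^ 2) +
        2 * (sg a * sg b * t.re)) := by
    rw [Complex.sq_norm, n1, normSq_apply]
    simp only [add_re, add_im, ofReal_re, ofReal_im, re_ofReal_mul, im_ofReal_mul]
    ring
  rw [e, ha, hb, sq, sq, r3]
  have n4 : ‖v‖ ≤ 2 * (|v.re| + |v.re * t.re + v.im * t.im|) := by linarith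
  nlinarith [norm_nonneg v, mul_le_mul_of_nonneg_left n4 hP.le,
    mul_nonneg (norm_nonneg v) (sub_nonneg.2 hv), mul_nonneg hP.le (sub_nonneg.2 hv),
    mul_le_mul_of_nonneg_left sm (sq_nonneg P)]

namespace Data

variable (d : Data)

noncomputable def β : ℝ := 1 / (32 * d.S)

noncomputable def R : ℝ := 32 * (d.S + 8)

def dig (w : Mv) (e : ℕ) : ℤ :=
  if e = 0 then d.sig w else if e = 1 then 4 * (d.S + 8) * sg w.2.2.1
  else if e = 2 then 4 * (d.S + 8) * sg w.2.2.2.1 else cor w (e - 3)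

/-- The isometry of a move. -/
noncomputable def mv (w : Mv) (z : ℂ) : ℂ :=
  d.t ^ 16 * z + ∑ e ∈ Finset.range 15, (d.dig w e : ℂ) * d.t ^ e

/-- Lamp `l` of register `x`. -/
noncomputable def Y (x l : ℕ) (z : ℂ) : ℝ := (d.η x * d.t ^ l * z).re

theorem S_pos : (0 : ℝ) < d.S := by exact_mod_cast (Nat.zero_le _).trans_lt (d.sig_lt default)

theorem β_pos : 0 < d.β := by
  have := d.S_pos
  unfold β
  positivity

theorem dig_abs (w : Mv) (e : ℕ) : |(d.dig w e : ℝ)| ≤ 4 * (d.S + 8) := by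
  have h1 := d.sig_lt w
  have h2 := abs_le.1 (cor_abs w (e - 3))
  have h3 : |d.dig w e| ≤ 4 * (d.S + 8) := by
    unfold dig sg
    rw [abs_le]
    split_ifs <;> omega
  exact_mod_cast h3

theorem Y_cont (x l : ℕ) : Continuous (d.Y x l) := by
  unfold Y
  fun_prop

theorem mv_cont (w : Mv) : Continuous (d.mv w) := by
  unfold mv
  fun_prop

theorem step (w : Mv) (x l : ℕ) (z : ℂ) (hl : (l : ℤ) + 15 ≤ 16 * d.p.M (x / 8)) :
    nm (d.Y x l (d.mv w z) - d.Y x (l + 16) z - ∑ e ∈ Finset.range 15,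
      d.dig w e * tgt d.S (16 * (d.p.off x - 1) + 4 + (x % 8 : ℕ)) (l + e)) ≤
      60 * (d.S + 8) * d.δ (x / 8) := by
  have e1 : d.Y x l (d.mv w z) - d.Y x (l + 16) z =
      ∑ e ∈ Finset.range 15, d.dig w e * (d.η x * d.t ^ (l + e)).re := by
    unfold Y mv
    rw [← sub_re, mul_add, pow_add, show d.η x * d.t ^ l * (d.t ^ 16 * z) =
      d.η x * (d.t ^ l * d.t ^ 16) * z by ring, add_sub_cancel_left, Finset.mul_sum, re_sum]
    refine Finset.sum_congr rfl fun e _ => ?_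
    rw [mul_left_comm, pow_add, mul_assoc]
    simp
  rw [e1, ← Finset.sum_sub_distrib]
  refine (nm_sum _ _).trans ((Finset.sum_le_card_nsmul _ _ (4 * (d.S + 8) * d.δ (x / 8))
    fun e he => ?_).trans_eq (by simp; ring))
  rw [← mul_sub]
  have h1 := Finset.mem_range.1 he
  refine (nm_zmul _ _).trans (mul_le_mul (d.dig_abs w e) (d.ker x _ (by push_cast; omega))
    (nm_nonneg _) (by positivity))

theorem wrapY (x m : ℕ) (hm : (m : ℤ) = d.p.M (x / 8)) {z : ℂ} (hz : ‖z‖ ≤ d.R) :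
    nm (d.Y x (16 * m + 1) z) ≤ nm (d.Y x 1 z) + 32 * (d.S + 8) * d.δ (x / 8) := by
  have e : d.Y x (16 * m + 1) z =
      -d.Y x 1 z + (d.η x * (d.t ^ (16 * m) + 1) * (d.t * z)).re := by
    unfold Y
    rw [← neg_re, ← add_re]
    congr 1
    ring
  have h1 := d.wrap x (16 * m) (by push_cast; rw [hm])
  have h2 : ‖d.η x * (d.t ^ (16 * m) + 1) * (d.t * z)‖ ≤ d.δ (x / 8) * d.R := by
    rw [norm_mul, norm_mul, norm_mul, d.t_norm, one_mul]
    exact mul_le_mul h1 hz (norm_nonneg _) (d.δ_pos _)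
  have h3 := (nm_le _).trans ((abs_re_le_norm _).trans h2)
  rw [e]
  refine (nm_add _ _).trans ?_
  rw [nm_neg]
  unfold R at h3
  linarith

theorem bounded (a b : Bool) (c : Fin 8 → SignType) {z : ℂ} (hz : ‖z‖ ≤ d.R) :
    ∃ u v : Bool, ‖d.mv (a, b, u, v, c) z‖ ≤ d.R := by
  have hS := d.S_pos
  have h0 : ‖d.t ^ 15 * z‖ ≤ 32 * (d.S + 8) := by
    rw [norm_mul, norm_pow, d.t_norm, one_pow, one_mul]
    exact hz
  obtain ⟨u, v, h⟩ := steer d.t_norm d.t_near (by positivity) h0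
  refine ⟨u, v, ?_⟩
  generalize hw : (a, b, u, v, c) = w
  have hu : w.2.2.1 = u := by rw [← hw]
  have hv : w.2.2.2.1 = v := by rw [← hw]
  have e : d.mv w z = d.t * (d.t ^ 15 * z + (4 * (d.S + 8) * sg u : ℝ) +
      (4 * (d.S + 8) * sg v : ℝ) * d.t) + (d.sig w : ℂ) +
      ∑ e ∈ Finset.range 8, (cor w e : ℂ) * d.t ^ (e + 3) := by
    simp [mv, dig, Finset.sum_range_succ, hu, hv, cor]
    ring
  have h1 : ‖∑ e ∈ Finset.range 8, (cor w e : ℂ) * d.t ^ (e + 3)‖ ≤ 8 := by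
    refine (norm_sum_le _ _).trans ((Finset.sum_le_card_nsmul _ _ 1 fun e _ => ?_).trans_eq
      (by simp))
    rw [norm_mul, norm_pow, d.t_norm, one_pow, mul_one, Complex.norm_intCast]
    exact_mod_cast cor_abs w e
  have h2 : ‖(d.sig w : ℂ)‖ ≤ d.S := by
    rw [Complex.norm_natCast]
    exact_mod_cast (d.sig_lt w).le
  rw [e]
  refine norm_add₃_le.trans ?_
  rw [norm_mul, d.t_norm, one_mul]
  unfold R
  linarith

end Data

end Pool.Agent.P.MP_01f353_gt
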