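import Pool.Agent.P.MP_01f353_gt.Keep

set_option autoImplicit false

namespace Pool.Agent.P.MP_01f353_gt

namespace Data

variable (d : Data)

theorem prov (j : ℕ) : ∀ y ∈ d.L j, ∃ z ∈ d.Z, ∀ x l : ℕ, 1 ≤ l →
    (l : ℤ) + 16 * j ≤ 16 * (d.p.off x - 1) →
    nm (d.Y x l y - d.Y x (l + 16 * j + 1) z) ≤ j * (60 * (d.S + 8) * d.δ (x / 8)) := by
  induction j with
  | zero =>
    rintro _ ⟨z, hz, rfl⟩
    refine ⟨z, hz, fun x l _ _ => ?_⟩
    have e : d.Y x l (d.t * z) = d.Y x (l + 16 * 0 + 1) z := by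
      unfold Y
      congr 1
      ring
    simp only [e, sub_self, nm_zero, Nat.cast_zero, zero_mul, le_refl]
  | succ j ih =>
    intro y hy
    obtain ⟨w, y0, ⟨hy0, -⟩, rfl⟩ := Set.mem_iUnion.1 hy
    obtain ⟨z, hz, h⟩ := ih y0 hy0
    refine ⟨z, hz, fun x l h1 h2 => ?_⟩
    have o2 := (d.p.off_bd x).2
    push_cast at h2
    have h3 := d.step w x l y0 (by omega)
    rw [Finset.sum_eq_zero fun e he => by
      have := Finset.mem_range.1 he
      unfold tgt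
      rw [if_neg (by omega), if_neg (by omega), mul_zero], sub_zero] at h3
    have h4 := h x (l + 16) (by omega) (by push_cast; omega)
    have h5 := nm_add (d.Y x l (d.mv w y0) - d.Y x (l + 16) y0)
      (d.Y x (l + 16) y0 - d.Y x (l + 16 + 16 * j + 1) z)
    rw [sub_add_sub_cancel] at h5
    rw [show l + 16 * (j + 1) + 1 = l + 16 + 16 * j + 1 by ring]
    push_cast
    linarith

theorem approx {z : ℂ} (hz : z ∈ d.Z) (a r : ℕ) : ∃ h : ℤ, ∀ x : ℕ, x / 8 < a →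
    (r : ℤ) < d.p.M (x / 8) → ¬d.p.Dead (x / 8) (h + r - d.p.off x) →
    nm (d.Y x (16 * r + 1) z) ≤ 5 * d.β := by
  have hV : ∀ᶠ y in nhds z, ∀ x ∈ Finset.range (8 * a),
      dist (d.Y x (16 * r + 1) y) (d.Y x (16 * r + 1) z) < d.β :=
    (Filter.eventually_all_finset _).2 fun x _ =>
      (d.Y_cont x _).continuousAt.eventually (Metric.ball_mem_nhds _ d.β_pos)
  obtain ⟨y, hy, -, h, hh⟩ := mem_closure_iff_nhds.1 (Set.mem_iInter.1 hz a) _ hV
  refine ⟨h, fun x hx hr hd => ?_⟩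
  have h1 := hh x r hx hr hd
  have h2 := hy x (Finset.mem_range.2 (by omega))
  have h3 := nm_sub (d.Y x (16 * r + 1) y) (d.Y x (16 * r + 1) y - d.Y x (16 * r + 1) z)
  rw [sub_sub_cancel] at h3
  rw [Real.dist_eq] at h2
  linarith [nm_le (d.Y x (16 * r + 1) y - d.Y x (16 * r + 1) z)]

theorem read {j : ℕ} {y : ℂ} (hy : y ∈ d.L j) (w : Mv) (a : ℕ) : ∃ B : ℤ, ∀ x : ℕ, x / 8 < a →
    j ≤ x / 8 → ¬d.p.Dead (x / 8) (B - d.p.off x) →
    nm (d.Y x 0 (d.mv w y) - d.sig w * (1 / (2 * d.S))) ≤ 6 * d.β := by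
  obtain ⟨z, hz, h⟩ := d.prov j y hy
  obtain ⟨g, hg⟩ := d.approx hz a (j + 1)
  refine ⟨g + (j + 1 : ℕ), fun x hx hj hd => ?_⟩
  obtain ⟨o1, o2⟩ := d.p.off_bd x
  have m1 : 2 * ((j : ℤ) + 2) ≤ d.p.M (x / 8) := by
    have a1 := d.p.Tl (x / 8)
    have a2 := d.p.W_pos (x / 8)
    have a3 : ((x / 8 + 10 : ℕ) : ℤ) < 2 ^ (x / 8 + 10) := by
      exact_mod_cast Nat.lt_two_pow_self
    have a4 : (j : ℤ) + 2 ≤ d.p.T (x / 8) := by omega
    unfold Par.M
    nlinarith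
  have h1 := hg x hx (by push_cast; omega) hd
  have h2 := h x 16 (by norm_num) (by push_cast; omega)
  have h3 := d.step w x 0 y (by push_cast; omega)
  rw [Finset.sum_eq_single 0 (fun e he h0 => by
    have := Finset.mem_range.1 he
    unfold tgt
    rw [if_neg (by omega), if_neg (by omega), mul_zero]) (by simp)] at h3
  have e1 : (d.dig w 0 : ℝ) * tgt d.S (16 * (d.p.off x - 1) + 4 + (x % 8 : ℕ)) (0 + 0) =
      d.sig w * (1 / (2 * d.S)) := by simp [dig, tgt]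
  rw [e1, zero_add] at h3
  rw [show 16 + 16 * j + 1 = 16 * (j + 1) + 1 by ring] at h2
  have h4 := nm_add (d.Y x 0 (d.mv w y) - d.Y x 16 y - d.sig w * (1 / (2 * d.S)))
    (d.Y x 16 y - d.Y x (16 * (j + 1) + 1) z)
  have h5 := nm_add (d.Y x 0 (d.mv w y) - d.Y x 16 y - d.sig w * (1 / (2 * d.S)) +
    (d.Y x 16 y - d.Y x (16 * (j + 1) + 1) z)) (d.Y x (16 * (j + 1) + 1) z)
  have h6 := d.δ_le (x / 8)
  have h7 : 0 ≤ (d.S + 8) * d.δ (x / 8) := by
    have := d.δ_pos (x / 8)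
    positivity
  have h8 : 2 * ((j : ℝ) + 2) ≤ d.p.M (x / 8) := by exact_mod_cast m1
  have h9 : (j : ℝ) + 1 ≤ (d.p.M (x / 8) : ℝ) ^ 2 := by nlinarith [Nat.cast_nonneg (α := ℝ) j]
  have h10 := mul_le_mul_of_nonneg_right h9 h7
  have e2 : d.Y x 0 (d.mv w y) - d.Y x 16 y - d.sig w * (1 / (2 * d.S)) +
      (d.Y x 16 y - d.Y x (16 * (j + 1) + 1) z) + d.Y x (16 * (j + 1) + 1) z =
      d.Y x 0 (d.mv w y) - d.sig w * (1 / (2 * d.S)) := by ring
  rw [e2] at h5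
  change _ ≤ d.β at h6
  nlinarith [mul_nonneg (sq_nonneg (d.p.M (x / 8) : ℝ)) h7]

theorem decode {j j' : ℕ} {y y' : ℂ} (hy : y ∈ d.L j) (hy' : y' ∈ d.L j') {w w' : Mv}
    (h : d.mv w y = d.mv w' y') : w = w' := by
  obtain ⟨B, hB⟩ := d.read hy w (2 * (j + j' + 1))
  obtain ⟨B', hB'⟩ := d.read hy' w' (2 * (j + j' + 1))
  obtain ⟨x, x1, x2, x3, x4⟩ := d.p.common (N := j + j' + 1) (by omega) B B'
  have h1 := hB x (by omega) (by omega) x3
  have h2 := hB' x (by omega) (by omega) x4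
  rw [← h] at h2
  have h3 := nm_sub (d.Y x 0 (d.mv w y) - d.sig w' * (1 / (2 * d.S)))
    (d.Y x 0 (d.mv w y) - d.sig w * (1 / (2 * d.S)))
  have hS := d.S_pos
  have a1 : (d.sig w : ℝ) < d.S := by exact_mod_cast d.sig_lt w
  have a2 : (d.sig w' : ℝ) < d.S := by exact_mod_cast d.sig_lt w'
  have a3 : |(d.sig w : ℝ) - d.sig w'| ≤ d.S := by
    rw [abs_le]
    constructor <;> linarith [Nat.cast_nonneg (α := ℝ) (d.sig w), Nat.cast_nonneg (α := ℝ) (d.sig w')]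
  have a4 : |((d.sig w : ℝ) - d.sig w') * (1 / (2 * d.S))| =
      |(d.sig w : ℝ) - d.sig w'| * (16 * d.β) := by
    rw [abs_mul, abs_of_pos (show (0 : ℝ) < 1 / (2 * d.S) by positivity)]
    unfold β
    field_simp
    ring
  have a5 : (d.S : ℝ) * (16 * d.β) = 1 / 2 := by
    unfold β
    field_simp
    norm_num
  have hβ := d.β_pos
  rw [sub_sub_sub_cancel_left, ← sub_mul, nm_eq (by rw [a4]; nlinarith), a4] at h3
  refine d.sig_inj (by_contra fun hne => ?_)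
  have a6 : (1 : ℤ) ≤ |(d.sig w : ℤ) - d.sig w'| := Int.one_le_abs (by omega)
  have a7 : (1 : ℝ) ≤ |(d.sig w : ℝ) - d.sig w'| := by exact_mod_cast a6
  nlinarith

theorem Z_compact : IsCompact d.Z :=
  (isCompact_closedBall (0 : ℂ) d.R).of_isClosed_subset
    (isClosed_iInter fun _ => isClosed_closure) fun _ hz => mem_closedBall_zero_iff.2 (d.Z_norm hz)

theorem Al_closed (j : ℕ) (w : Mv) : IsClosed (d.Al j w) := by
  unfold Al
  simp only [Set.ofPred_and]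
  refine (isClosed_le (d.mv_cont w).norm continuous_const).inter (isClosed_const.inter
    (IsClosed.inter ?_ isClosed_const))
  simp only [Set.ofPred_forall]
  refine isClosed_iInter fun x => isClosed_iInter fun s => isClosed_iInter fun _ =>
    isClosed_iInter fun _ => isClosed_le ?_ ?_
  · exact nm_cont.comp ((d.Y_cont _ _).add continuous_const)
  · exact continuous_const.max ((nm_cont.comp (d.Y_cont _ _)).sub continuous_const)

theorem L_compact (j : ℕ) : IsCompact (d.L j) := by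
  induction j with
  | zero => exact d.Z_compact.image (by fun_prop)
  | succ j ih =>
    exact isCompact_iUnion fun w => (ih.inter_right (d.Al_closed j w)).image (d.mv_cont w)

/-- The compact paradoxical set. -/
def K : Set ℂ := d.Z ∪ ⋃ j, d.L (j + 1)

theorem K_compact : IsCompact d.K := by
  refine (isCompact_closedBall (0 : ℂ) d.R).of_isClosed_subset (isClosed_of_closure_subset ?_) ?_
  · intro z hz
    by_contra hn
    refine hn (Or.inl (Set.mem_iInter.2 fun a => ?_))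
    obtain ⟨J, hJ⟩ := d.L_sub a
    have hc : IsClosed (closure (d.Wa a) ∪ ⋃ j ∈ Finset.range J, d.L (j + 1)) :=
      isClosed_closure.union (isClosed_biUnion_finset fun j _ => (d.L_compact _).isClosed)
    have hs : d.K ⊆ closure (d.Wa a) ∪ ⋃ j ∈ Finset.range J, d.L (j + 1) := by
      rintro y (hy | hy)
      · exact Or.inl (Set.mem_iInter.1 hy a)
      · obtain ⟨j, hj⟩ := Set.mem_iUnion.1 hy
        rcases lt_or_ge j J with h | h
        · exact Or.inr (Set.mem_biUnion (Finset.mem_coe.2 (Finset.mem_range.2 h)) hj)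
        · exact Or.inl (subset_closure (hJ _ (by omega) hj))
    refine (closure_minimal hs hc hz).resolve_right fun h => hn (Or.inr ?_)
    obtain ⟨j, -, hj⟩ := Set.mem_iUnion₂.1 h
    exact Set.mem_iUnion.2 ⟨j, hj⟩
  · rintro z (hz | hz)
    · exact mem_closedBall_zero_iff.2 (d.Z_norm hz)
    · obtain ⟨j, hj⟩ := Set.mem_iUnion.1 hz
      exact mem_closedBall_zero_iff.2 (d.L_norm hj)

theorem K_zero : (0 : ℂ) ∈ d.K := by
  refine Or.inl (Set.mem_iInter.2 fun a => subset_closure ⟨?_, 0, fun x r _ _ _ => ?_⟩)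
  · unfold R
    rw [norm_zero]
    positivity
  · have := d.β_pos
    simp only [Y, mul_zero, Complex.zero_re, nm_zero]
    positivity

theorem exists_iso {u : ℂ} (hu : ‖u‖ = 1) (v : ℂ) : ∃ f : ℂ ≃ᵢ ℂ, ∀ z, f z = u * z + v := by
  have h0 : u ≠ 0 := fun h => by simp [h] at hu
  refine ⟨⟨⟨fun z => u * z + v, fun z => u⁻¹ * (z - v), fun z => ?_, fun z => ?_⟩,
    Isometry.of_dist_eq fun a b => ?_⟩, fun _ => rfl⟩
  · simp [h0]
  · simp [h0]
  · simp [dist_eq_norm, ← mul_sub, hu]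

theorem para : ∃ (A : Mv → Set ℂ) (g : Mv → ℂ ≃ᵢ ℂ), (∀ w, IsSigmaCompact (A w)) ∧
    (∀ w, A w ⊆ d.K) ∧ Pairwise (Function.onFun Disjoint A) ∧ (∀ w, g w '' A w ⊆ d.K) ∧
    ∀ b : Bool, ∀ z ∈ d.K, ∃ w : Mv, w.2.1 = b ∧ z ∈ g w '' A w := by
  have hf : ∀ w : Mv, ∃ f : ℂ ≃ᵢ ℂ, ∀ z, f z = d.mv w (if w.1 = true then d.t * z else z) := by
    intro w
    obtain ⟨f, hf⟩ := exists_iso (u := d.t ^ 16 * if w.1 = true then d.t else 1) (by
      split_ifs <;> simp [d.t_norm]) (∑ e ∈ Finset.range 15, (d.dig w e : ℂ) * d.t ^ e)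
    refine ⟨f, fun z => ?_⟩
    rw [hf]
    unfold mv
    split_ifs <;> ring
  choose f hf using hf
  refine ⟨fun w => ⋃ j, d.mv w '' (d.L j ∩ d.Al j w), fun w => (f w).symm, fun w => ?_,
    fun w => ?_, fun w w' hw => ?_, fun w => ?_, fun b z hz => ?_⟩
  · exact isSigmaCompact_iUnion_of_isCompact _ fun j =>
      ((d.L_compact j).inter_right (d.Al_closed j w)).image (d.mv_cont w)
  · exact Set.iUnion_subset fun j z hz =>
      Or.inr (Set.mem_iUnion.2 ⟨j, Set.mem_iUnion.2 ⟨w, hz⟩⟩)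
  · refine Set.disjoint_left.2 fun z h h' => hw ?_
    obtain ⟨j, y, hy, e⟩ := Set.mem_iUnion.1 h
    obtain ⟨j', y', hy', e'⟩ := Set.mem_iUnion.1 h'
    exact d.decode hy.1 hy'.1 (e.trans e'.symm)
  · rintro _ ⟨z, hz, rfl⟩
    obtain ⟨j, y, ⟨hy, ha⟩, rfl⟩ := Set.mem_iUnion.1 hz
    cases j with
    | zero =>
      obtain ⟨z, hz', rfl⟩ := hy
      have e := hf w z
      rw [if_pos (ha.2.1.2 rfl)] at e
      simp only [← e, IsometryEquiv.symm_apply_apply]
      exact Or.inl hz'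
    | succ j =>
      have e := hf w y
      rw [if_neg fun h => absurd (ha.2.1.1 h) (Nat.succ_ne_zero j)] at e
      simp only [← e, IsometryEquiv.symm_apply_apply]
      exact Or.inr (Set.mem_iUnion.2 ⟨j, hy⟩)
  · rcases hz with hz | hz
    · have hy : d.t * z ∈ d.L 0 := ⟨z, hz, rfl⟩
      obtain ⟨w, hw, ha⟩ := d.exists_al 0 b (d.L_norm hy)
      refine ⟨w, hw, f w z, Set.mem_iUnion.2 ⟨0, _, ⟨hy, ha⟩, ?_⟩, (f w).symm_apply_apply z⟩
      rw [hf, if_pos (ha.2.1.2 rfl)]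
    · obtain ⟨j, hy⟩ := Set.mem_iUnion.1 hz
      obtain ⟨w, hw, ha⟩ := d.exists_al (j + 1) b (d.L_norm hy)
      refine ⟨w, hw, f w z, Set.mem_iUnion.2 ⟨j + 1, _, ⟨hy, ha⟩, ?_⟩, (f w).symm_apply_apply z⟩
      rw [hf, if_neg fun h => absurd (ha.2.1.1 h) (Nat.succ_ne_zero j)]

end Data

end Pool.Agent.P.MP_01f353_gt
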