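import Pool.Agent.P.MP_01f353_gt.Kron

set_option autoImplicit false

namespace Pool.Agent.P.MP_01f353_gt

open Complex

/-- The point of the unit circle with argument `π x`. -/
noncomputable def cis (x : ℝ) : ℂ := exp (I * ((Real.pi * x : ℝ) : ℂ))

theorem cis_norm (x : ℝ) : ‖cis x‖ = 1 := norm_exp_I_mul_ofReal _

theorem cis_sub (x y : ℝ) : ‖cis x - cis y‖ ≤ 4 * |x - y| := by
  have e : cis x - cis y = cis y * (cis (x - y) - 1) := by
    unfold cis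
    rw [mul_sub, ← exp_add, mul_one]
    congr 2
    push_cast
    ring
  rw [e, norm_mul, cis_norm, one_mul]
  refine Real.norm_exp_I_mul_ofReal_sub_one_le.trans ?_
  rw [Real.norm_eq_abs, abs_mul, abs_of_pos Real.pi_pos]
  exact mul_le_mul_of_nonneg_right Real.pi_le_four (abs_nonneg _)

theorem cis_pow (x : ℝ) (l : ℕ) : cis x ^ l = cis (l * x) := by
  unfold cis
  rw [← exp_nat_mul]
  congr 1
  push_cast
  ring

theorem cis_pow_sub (x y : ℝ) (l : ℕ) : ‖cis x ^ l - cis y ^ l‖ ≤ 4 * l * |x - y| := by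
  rw [cis_pow, cis_pow]
  refine (cis_sub _ _).trans_eq ?_
  rw [← mul_sub, abs_mul, Nat.abs_cast, mul_assoc]

theorem cis_half : cis (1 / 2) = I := by
  refine Eq.trans ?_ exp_pi_div_two_mul_I
  unfold cis
  congr 1
  push_cast
  ring

theorem cis_odd {a : ℕ} (ha : Odd a) (E : ℕ) : cis (a / 2 ^ E) ^ 2 ^ E = -1 := by
  have e : ((2 ^ E : ℕ) : ℝ) * (a / 2 ^ E) = a * 1 := by
    push_cast
    field_simp
  have h1 : cis 1 = -1 := by
    unfold cis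
    rw [← exp_pi_mul_I]
    congr 1
    push_cast
    ring
  rw [cis_pow, e, ← cis_pow, h1, ha.neg_one_pow]

theorem cis_indep {a : ℕ} (ha : Odd a) (E : ℕ) (n : Fin (2 ^ E) → ℤ)
    (h : ∑ i, (n i : ℂ) * cis (a / 2 ^ E) ^ (i : ℕ) = 0) : n = 0 := by
  have h1 : IsPrimitiveRoot (cis (a / 2 ^ E)) (2 ^ (E + 1)) := by
    have h2 := isPrimitiveRoot_exp_of_coprime a (2 ^ (E + 1)) (by positivity)
      (Nat.Coprime.pow_right _ (Nat.coprime_two_right.2 ha))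
    convert h2 using 1
    unfold cis
    congr 1
    push_cast
    field_simp
    ring
  have h3 : (minpoly ℚ (cis (a / 2 ^ E))).natDegree = 2 ^ E := by
    rw [← Polynomial.cyclotomic_eq_minpoly_rat h1 (by positivity),
      Polynomial.natDegree_cyclotomic, Nat.totient_prime_pow_succ Nat.prime_two]
    simp
  have h4 := linearIndependent_pow (K := ℚ) (cis (a / 2 ^ E))
  rw [h3] at h4
  have h5 := Fintype.linearIndependent_iff.1 h4 (fun i => (n i : ℚ)) (by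
    rw [← h]
    refine Finset.sum_congr rfl fun i _ => ?_
    rw [Rat.smul_def]
    simp)
  funext i
  exact_mod_cast h5 i

/-- One stage of the construction. -/
theorem stage (κ : ℕ → ℕ → ℝ) {δ : ℝ} (hδ : 0 < δ) {a : ℕ} (ha : Odd a) (E : ℕ) :
    ∃ ρ : ℝ, 0 < ρ ∧ ∀ x : ℝ, |x - a / 2 ^ E| ≤ ρ → ∀ f < 2 ^ E, ∃ η : ℂ,
      (∀ l < 2 ^ E, nm ((η * cis x ^ l).re - κ f l) ≤ δ) ∧ ‖η‖ * ‖cis x ^ 2 ^ E + 1‖ ≤ δ := by
  choose η hη using fun f : ℕ => kron (fun i : Fin (2 ^ E) => cis (a / 2 ^ E) ^ (i : ℕ))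
    (cis_indep ha E) (fun i => κ f i) (half_pos hδ)
  obtain ⟨B, hB0, hB⟩ : ∃ B : ℝ, 0 < B ∧ ∀ f < 2 ^ E, ‖η f‖ ≤ B := by
    refine ⟨∑ f ∈ Finset.range (2 ^ E), ‖η f‖ + 1, by positivity, fun f hf => ?_⟩
    have := Finset.single_le_sum (f := fun f => ‖η f‖) (fun _ _ => norm_nonneg _)
      (Finset.mem_range.2 hf)
    linarith
  refine ⟨δ / (8 * 2 ^ E * B), by positivity, fun x hx f hf => ?_⟩
  have key : ∀ l ≤ 2 ^ E, ‖η f‖ * ‖cis x ^ l - cis (a / 2 ^ E) ^ l‖ ≤ δ / 2 := by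
    intro l hl
    have h1 : (l : ℝ) ≤ 2 ^ E := by exact_mod_cast hl
    calc ‖η f‖ * ‖cis x ^ l - cis (a / 2 ^ E) ^ l‖ ≤ B * (4 * l * |x - a / 2 ^ E|) :=
          mul_le_mul (hB f hf) (cis_pow_sub _ _ l) (norm_nonneg _) hB0.le
      _ ≤ B * (4 * 2 ^ E * (δ / (8 * 2 ^ E * B))) := by gcongr
      _ = δ / 2 := by
          field_simp
          ring
  refine ⟨η f, fun l hl => ?_, ?_⟩
  · have h1 := hη f ⟨l, hl⟩
    have e : (η f * cis x ^ l).re - κ f l = ((η f * cis (a / 2 ^ E) ^ l).re - κ f l) +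
        (η f * (cis x ^ l - cis (a / 2 ^ E) ^ l)).re := by
      rw [mul_sub, sub_re]
      ring
    have h2 := (nm_le _).trans ((abs_re_le_norm (η f * (cis x ^ l - cis (a / 2 ^ E) ^ l))).trans
      ((norm_mul _ _).trans_le (key l hl.le)))
    rw [e]
    exact (nm_add _ _).trans (by linarith)
  · have h1 := key _ le_rfl
    rw [cis_odd ha, sub_neg_eq_add] at h1
    linarith

/-- A rotation with cyclic registers of all levels. -/
theorem rot (κ : ℕ → ℕ → ℝ) (δ : ℕ → ℝ) (hδ : ∀ E, 0 < δ E) (g : ℕ → ℕ) :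
    ∃ (e : ℕ → ℕ) (t : ℂ), ‖t‖ = 1 ∧ ‖t - I‖ ≤ 1 / 2 ∧ e 0 = 20 ∧ (∀ n, g (e n) ≤ e (n + 1)) ∧
      (∀ n, e n < e (n + 1)) ∧ ∀ n, ∀ f < 2 ^ e n, ∃ η : ℂ,
        (∀ l < 2 ^ e n, nm ((η * t ^ l).re - κ f l) ≤ δ (e n)) ∧
        ‖η‖ * ‖t ^ 2 ^ e n + 1‖ ≤ δ (e n) := by
  have step : ∀ s : ℕ × ℕ, ∃ E' : ℕ, g s.1 ≤ E' ∧ s.1 < E' ∧ (Odd s.2 → ∀ x : ℝ,
      |x - s.2 / 2 ^ s.1| ≤ 2 / 2 ^ E' → ∀ f < 2 ^ s.1, ∃ η : ℂ,
        (∀ l < 2 ^ s.1, nm ((η * cis x ^ l).re - κ f l) ≤ δ s.1) ∧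
        ‖η‖ * ‖cis x ^ 2 ^ s.1 + 1‖ ≤ δ s.1) := by
    intro s
    by_cases hs : Odd s.2
    · obtain ⟨ρ, hρ, h⟩ := stage κ (hδ s.1) hs s.1
      obtain ⟨k, hk⟩ := pow_unbounded_of_one_lt (2 / ρ) (one_lt_two (α := ℝ))
      refine ⟨g s.1 + s.1 + 1 + k, by omega, by omega, fun _ x hx => h x (hx.trans ?_)⟩
      have h1 : (2 : ℝ) ^ k ≤ 2 ^ (g s.1 + s.1 + 1 + k) := pow_le_pow_right₀ one_le_two (by omega)
      rw [div_lt_iff₀ hρ] at hk
      rw [div_le_iff₀ (by positivity)]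
      nlinarith
    · exact ⟨g s.1 + s.1 + 1, by omega, by omega, fun h => absurd h hs⟩
  choose nx h1 h2 h3 using step
  let s : ℕ → ℕ × ℕ := fun n =>
    Nat.rec (20, 2 ^ 19 + 1) (fun _ p => (nx p, p.2 * 2 ^ (nx p - p.1) + 1)) n
  have s0 : s 0 = (20, 2 ^ 19 + 1) := rfl
  have s1 : ∀ n, (s (n + 1)).1 = nx (s n) := fun _ => rfl
  have s2 : ∀ n, (s (n + 1)).2 = (s n).2 * 2 ^ (nx (s n) - (s n).1) + 1 := fun _ => rfl
  have hodd : ∀ n, Odd (s n).2 := by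
    rintro (_ | n)
    · rw [s0]
      decide
    · rw [s2]
      refine Even.add_one (Even.mul_left ?_ _)
      exact (Nat.even_pow' (Nat.sub_ne_zero_of_lt (h2 (s n)))).2 even_two
  let θ : ℕ → ℝ := fun n => (s n).2 / 2 ^ (s n).1
  have hθ : ∀ n, θ (n + 1) = θ n + 1 / 2 ^ nx (s n) := by
    intro n
    have e : (2 : ℝ) ^ nx (s n) = 2 ^ (s n).1 * 2 ^ (nx (s n) - (s n).1) := by
      rw [← pow_add, Nat.add_sub_cancel' (h2 (s n)).le]
    simp only [θ]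
    rw [s1, s2, e]
    push_cast
    field_simp
  have mono : Monotone θ := monotone_nat_of_le_succ fun n => by
    rw [hθ]
    exact le_add_of_nonneg_right (by positivity)
  have anti : Antitone fun n => θ n + 2 / 2 ^ nx (s n) := antitone_nat_of_succ_le fun n => by
    have h4 : (2 : ℝ) ^ (nx (s n) + 1) ≤ 2 ^ nx (s (n + 1)) :=
      pow_le_pow_right₀ one_le_two (h2 (s (n + 1)))
    have h5 : (2 : ℝ) / 2 ^ nx (s (n + 1)) ≤ 2 / 2 ^ (nx (s n) + 1) := by gcongr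
    have h6 : (2 : ℝ) / 2 ^ (nx (s n) + 1) = 1 / 2 ^ nx (s n) := by
      rw [pow_succ]
      field_simp
    have h7 : (2 : ℝ) / 2 ^ nx (s n) = 1 / 2 ^ nx (s n) + 1 / 2 ^ nx (s n) := by ring
    rw [hθ]
    linarith
  have ub : ∀ n k, θ k ≤ θ n + 2 / 2 ^ nx (s n) := by
    intro n k
    have h4 : (0 : ℝ) ≤ 2 / 2 ^ nx (s (max n k)) := by positivity
    have h5 := mono (le_max_right n k)
    have h6 := anti (le_max_left n k)
    simp only at h6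
    linarith
  have bdd : BddAbove (Set.range θ) := ⟨_, by rintro _ ⟨k, rfl⟩; exact ub 0 k⟩
  have near : ∀ n, |(⨆ k, θ k) - θ n| ≤ 2 / 2 ^ nx (s n) := fun n => by
    have h4 := le_ciSup bdd n
    have h5 := ciSup_le (ub n)
    rw [abs_of_nonneg (by linarith)]
    linarith
  refine ⟨fun n => (s n).1, cis (⨆ k, θ k), cis_norm _, ?_, rfl, fun n => h1 (s n),
    fun n => h2 (s n), fun n => h3 (s n) (hodd n) _ (near n)⟩
  rw [← cis_half]
  refine (cis_sub _ _).trans ?_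
  have h4 := abs_le.1 (near 0)
  have h5 : θ 0 = 1 / 2 + 1 / 2 ^ 20 := by
    simp only [θ, s0]
    norm_num
  have h6 : (2 : ℝ) ^ 20 ≤ 2 ^ nx (s 0) := pow_le_pow_right₀ one_le_two (h2 (s 0)).le
  have h7 : (2 : ℝ) / 2 ^ nx (s 0) ≤ 2 / 2 ^ 20 := by gcongr
  have h8 : |(⨆ k, θ k) - 1 / 2| ≤ 1 / 8 := by
    rw [abs_le]
    norm_num at h5 h7 ⊢
    constructor <;> linarith [h4.1, h4.2]
  linarith

end Pool.Agent.P.MP_01f353_gt
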